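import Mathlib
import Pool.Agent.W262.RK.Stm2
import Pool.Agent.W262.RK.Bas

/-!
# Project RK2, part CNT4

The number of `t` with given small prime factors and given signs, from the upper bound sieve in a
residue class (`SVR`).
-/

namespace Pool.Agent.W372.RK2

open Finset Pool.Agent.W262.RK

variable {J : Type} [Fintype J] [DecidableEq J]

set_option linter.unusedSectionVars false

lemma mem_Tup' {z y : ℕ} {d : J → ℕ} : d ∈ Tup J z y ↔
    (∀ i, d i ∈ (PP z y).divisors) ∧ ∀ i j, i ≠ j → (d i).Coprime (d j) := by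
  unfold Tup
  rw [mem_filter, Fintype.mem_piFinset]

lemma ff_sub (α β : J → ℤ) (t t' : ℤ) (j : J) :
    ff α β t j - ff α β t' j = α j * (t - t') := by
  unfold ff
  ring

lemma uniq {α β : J → ℤ} {z : ℕ} (hB : Bg α β z) {t : ℤ} {p : ℕ} (hp : p.Prime) (hz : z < p)
    {j l : J} (hj : (p : ℤ) ∣ ff α β t j) (hl : (p : ℤ) ∣ ff α β t l) : j = l := by
  by_contra hne
  apply (hB.2 p hp hz).2 j l hne
  have h1 : Res α β j l = α j * ff α β t l - α l * ff α β t j := by
    unfold Res ff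
    ring
  rw [h1]
  exact dvd_sub (hl.mul_left _) (hj.mul_left _)

lemma dvd_s1 {α β : J → ℤ} {z y : ℕ} {t : ℤ} {j : J} {p : ℕ} (hp : p.Prime) :
    p ∣ s1 α β z y t j ↔ p ∈ PS z y ∧ (p : ℤ) ∣ ff α β t j ∧ ¬ (p : ℤ) ^ 2 ∣ ff α β t j := by
  unfold s1
  constructor
  · intro h
    obtain ⟨q, hq, hpq⟩ := (hp.prime.dvd_finsetProd_iff _).1 h
    rw [mem_filter] at hq
    rw [(Nat.prime_dvd_prime_iff_eq hp (mem_PS.1 hq.1).2).1 hpq]
    exact hq
  · intro h
    exact dvd_prod_of_mem _ (mem_filter.2 h)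

lemma dvd_s2 {α β : J → ℤ} {z y : ℕ} {t : ℤ} {j : J} {p : ℕ} (hp : p.Prime) :
    p ∣ s2 α β z y t j ↔ p ∈ PS z y ∧ (p : ℤ) ^ 2 ∣ ff α β t j := by
  unfold s2
  constructor
  · intro h
    obtain ⟨q, hq, hpq⟩ := (hp.prime.dvd_finsetProd_iff _).1 h
    rw [mem_filter] at hq
    rw [(Nat.prime_dvd_prime_iff_eq hp (mem_PS.1 hq.1).2).1 hpq]
    exact hq
  · intro h
    exact dvd_prod_of_mem _ (mem_filter.2 h)

/-- a squarefree number whose primes have `p ^ k ∣ N` has `d ^ k ∣ N` -/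
lemma sq_pow_dvd {d : ℕ} (hd : Squarefree d) (k : ℕ) (N : ℤ)
    (h : ∀ p : ℕ, p.Prime → p ∣ d → (p : ℤ) ^ k ∣ N) : (d : ℤ) ^ k ∣ N := by
  have h0 : (d : ℤ) ^ k = ∏ p ∈ d.primeFactors, (p : ℤ) ^ k := by
    rw [prod_pow, ← Nat.cast_prod, Nat.prod_primeFactors_of_squarefree hd]
  rw [h0]
  apply Finset.prod_dvd_of_coprime
  · intro p hp q hq hpq
    have hp' := Nat.prime_of_mem_primeFactors hp
    have hq' := Nat.prime_of_mem_primeFactors hq
    exact (Nat.isCoprime_iff_coprime.2 ((Nat.coprime_primes hp' hq').2 hpq)).pow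
  · intro p hp
    exact h p (Nat.prime_of_mem_primeFactors hp) (Nat.dvd_of_mem_primeFactors hp)

/-- the number of residues with a given symbol -/
lemma card_W {p : ℕ} (hp : p.Prime) (hp2 : p ≠ 2) (e : ℤ) (he : e = 1 ∨ e = -1) :
    2 * ((range p).filter (fun x : ℕ => jacobiSym x p = e)).card = p - 1 := by
  have : Fact p.Prime := ⟨hp⟩
  have hch : ringChar (ZMod p) ≠ 2 := by
    rw [ZMod.ringChar_zmod_n]
    exact hp2
  have h1 : ∀ f : ZMod p → ℤ, ∑ x ∈ range p, f (x : ZMod p) = ∑ a : ZMod p, f a := by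
    intro f
    refine sum_nbij' (fun x : ℕ => (x : ZMod p)) ZMod.val ?_ ?_ ?_ ?_ ?_
    · intro x _
      exact mem_univ _
    · intro a _
      exact mem_range.2 (ZMod.val_lt a)
    · intro x hx
      exact ZMod.val_natCast_of_lt (mem_range.1 hx)
    · intro a _
      exact ZMod.natCast_zmod_val a
    · intro x _
      rfl
  have h2 : ∀ x : ℕ, jacobiSym x p = quadraticChar (ZMod p) (x : ZMod p) := by
    intro x
    rw [← jacobiSym.legendreSym.to_jacobiSym]
    simp [legendreSym]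
  have h3 : ∑ x ∈ range p, jacobiSym x p = 0 := by
    simp_rw [h2]
    rw [h1 (fun a => quadraticChar (ZMod p) a)]
    exact quadraticChar_sum_zero hch
  have h4 : ∑ x ∈ range p, (jacobiSym x p) ^ 2 = (p : ℤ) - 1 := by
    have hp0 : 0 < p := hp.pos
    obtain ⟨q, rfl⟩ : ∃ q, p = q + 1 := ⟨p - 1, by omega⟩
    rw [sum_range_succ']
    have h5 : ∀ x ∈ range q, (jacobiSym ((x + 1 : ℕ) : ℤ) (q + 1)) ^ 2 = 1 := by
      intro x hx
      have hx' := mem_range.1 hx
      apply jacobiSym.sq_one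
      rw [Int.gcd_natCast_natCast]
      exact (Nat.coprime_of_lt_prime (by omega) (by omega) hp).symm
    rw [sum_congr rfl h5]
    have h6 : jacobiSym ((0 : ℕ) : ℤ) (q + 1) = 0 := by
      rw [Nat.cast_zero]
      apply jacobiSym.zero_left
      exact hp.one_lt
    rw [h6]
    simp
  have h5 : (2 * ((range p).filter (fun x : ℕ => jacobiSym x p = e)).card : ℤ) =
      ∑ x ∈ range p, (jacobiSym x p) ^ 2 + e * ∑ x ∈ range p, jacobiSym x p := by
    rw [card_filter]
    push_cast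
    rw [mul_sum, mul_sum, ← sum_add_distrib]
    apply sum_congr rfl
    intro x _
    rcases jacobiSym.trichotomy (x : ℤ) p with h | h | h <;> rcases he with rfl | rfl <;>
      simp [h]
  rw [h3, h4] at h5
  have := hp.one_lt
  omega

/-- the factors of the modulus -/
def mj (cls : J → Fin 4) (s v u : J → ℕ) (j : J) : ℕ :=
  s j * (if cls j = 3 then s j else 1) * v j ^ 2 * u j

/-- the facts about the counted `t` -/
structure Good (α β : J → ℤ) (z y : ℕ) (s v u : J → ℕ) (t : ℤ) : Prop where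
  hs : s1 α β z y t = s
  hv : s2 α β z y t = v
  hu : ∀ j, (u j : ℤ) ∣ ff α β t j

variable {α β : J → ℤ} {z y Y : ℕ} {s v u : J → ℕ} {t : ℤ} {cls : J → Fin 4}

lemma Good.fs (g : Good α β z y s v u t) {p : ℕ} (hp : p.Prime) {j : J} (h : p ∣ s j) :
    p ∈ PS z y ∧ (p : ℤ) ∣ ff α β t j ∧ ¬ (p : ℤ) ^ 2 ∣ ff α β t j := by
  rw [← g.hs] at h
  exact (dvd_s1 hp).1 h

lemma Good.fv (g : Good α β z y s v u t) {p : ℕ} (hp : p.Prime) {j : J} (h : p ∣ v j) :
    p ∈ PS z y ∧ (p : ℤ) ^ 2 ∣ ff α β t j := by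
  rw [← g.hv] at h
  exact (dvd_s2 hp).1 h

lemma Good.fu (g : Good α β z y s v u t) (hu : u ∈ Tup J y Y) {p : ℕ} (hp : p.Prime) {j : J}
    (h : p ∣ u j) : y < p ∧ (p : ℤ) ∣ ff α β t j :=
  ⟨(dv_prime ((mem_Tup'.1 hu).1 j) hp h).1, (Int.natCast_dvd_natCast.2 h).trans (g.hu j)⟩

lemma Good.fmj (g : Good α β z y s v u t) (hu : u ∈ Tup J y Y) (hzy : z < y) {p : ℕ}
    (hp : p.Prime) {j : J} (h : p ∣ mj cls s v u j) : z < p ∧ (p : ℤ) ∣ ff α β t j := by
  unfold mj at h
  have hs : p ∣ s j → z < p ∧ (p : ℤ) ∣ ff α β t j := fun h' =>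
    ⟨(mem_PS.1 (g.fs hp h').1).1.1, (g.fs hp h').2.1⟩
  rcases hp.dvd_mul.1 h with h | h
  · rcases hp.dvd_mul.1 h with h | h
    · rcases hp.dvd_mul.1 h with h | h
      · exact hs h
      · split_ifs at h
        · exact hs h
        · exact absurd (Nat.dvd_one.1 h) hp.one_lt.ne'
    · have h' := g.fv hp (hp.dvd_of_dvd_pow h)
      exact ⟨(mem_PS.1 h'.1).1.1, (dvd_pow_self (p : ℤ) two_ne_zero).trans h'.2⟩
  · have h' := g.fu hu hp h
    exact ⟨hzy.trans h'.1, h'.2⟩

lemma alpha_coprime (hB : Bg α β z) {d : ℕ} (j : J) (hd : ∀ p : ℕ, p.Prime → p ∣ d → z < p) :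
    IsCoprime (d : ℤ) (α j) := by
  rw [Int.isCoprime_iff_gcd_eq_one, Int.gcd_comm, Int.gcd_eq_natAbs, Int.natAbs_natCast]
  by_contra h
  obtain ⟨p, hp, hpd⟩ := Nat.exists_prime_and_dvd h
  have h1 := (Nat.dvd_gcd_iff.1 hpd).2
  have h2 := (Nat.dvd_gcd_iff.1 hpd).1
  exact (hB.2 p hp (hd p hp h1)).1 j (Int.natCast_dvd.2 h2)

/-- two counted `t` with the same residues are congruent -/
lemma congr_of (hB : Bg α β z) (hzy : z < y) (hs : s ∈ Tup J z y) (hv : v ∈ Tup J z y)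
    (hu : u ∈ Tup J y Y) {t t' : ℤ} (g : Good α β z y s v u t) (g' : Good α β z y s v u t')
    (h3 : ∀ j, cls j = 3 → ∀ p : ℕ, p.Prime → p ∣ s j →
      (p : ℤ) ^ 2 ∣ ff α β t j - ff α β t' j) :
    ((∏ j, mj cls s v u j : ℕ) : ℤ) ∣ t - t' := by
  have hs' := (mem_Tup'.1 hs).1
  have hv' := (mem_Tup'.1 hv).1
  have hu' := (mem_Tup'.1 hu).1
  rw [Nat.cast_prod]
  apply Finset.prod_dvd_of_coprime
  · intro j _ l _ hjl
    rw [Function.onFun, Nat.isCoprime_iff_coprime]
    apply Nat.coprime_of_dvd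
    intro p hp hpj hpl
    have h1 := g.fmj hu hzy hp hpj
    have h2 := g.fmj hu hzy hp hpl
    exact hjl (uniq hB hp h1.1 h1.2 h2.2)
  intro j _
  -- division by `α j`
  have hdiv : ∀ d : ℕ, (∀ p : ℕ, p.Prime → p ∣ d → z < p) →
      (d : ℤ) ∣ ff α β t j - ff α β t' j → (d : ℤ) ∣ t - t' := by
    intro d hd h
    rw [ff_sub] at h
    exact (alpha_coprime hB j hd).dvd_of_dvd_mul_left h
  have hsz : ∀ p : ℕ, p.Prime → p ∣ s j → z < p := fun p hp h => (dv_prime (hs' j) hp h).1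
  have hvz : ∀ p : ℕ, p.Prime → p ∣ v j → z < p := fun p hp h => (dv_prime (hv' j) hp h).1
  have huz : ∀ p : ℕ, p.Prime → p ∣ u j → z < p := fun p hp h =>
    hzy.trans (dv_prime (hu' j) hp h).1
  have h1 : ((s j : ℕ) : ℤ) ∣ ff α β t j - ff α β t' j := by
    have h := sq_pow_dvd (dv_squarefree (hs' j)) 1 (ff α β t j - ff α β t' j)
      (fun p hp hpd => by
        rw [pow_one]
        exact dvd_sub (g.fs hp hpd).2.1 (g'.fs hp hpd).2.1)
    rwa [pow_one] at h
  have h2 : ((v j ^ 2 : ℕ) : ℤ) ∣ ff α β t j - ff α β t' j := by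
    have h := sq_pow_dvd (dv_squarefree (hv' j)) 2 (ff α β t j - ff α β t' j)
      (fun p hp hpd => dvd_sub (g.fv hp hpd).2 (g'.fv hp hpd).2)
    exact_mod_cast h
  have h4 : ((u j : ℕ) : ℤ) ∣ ff α β t j - ff α β t' j := dvd_sub (g.hu j) (g'.hu j)
  have h5 : ((s j * (if cls j = 3 then s j else 1) : ℕ) : ℤ) ∣ t - t' := by
    split_ifs with hc
    · apply hdiv
      · intro p hp h
        rcases hp.dvd_mul.1 h with h | h <;> exact hsz p hp h
      · have h := sq_pow_dvd (dv_squarefree (hs' j)) 2 (ff α β t j - ff α β t' j)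
          (fun p hp hpd => h3 j hc p hp hpd)
        rw [sq] at h
        exact_mod_cast h
    · rw [mul_one]
      exact hdiv _ hsz h1
  have h6 : ((v j ^ 2 : ℕ) : ℤ) ∣ t - t' :=
    hdiv _ (fun p hp h => hvz p hp (hp.dvd_of_dvd_pow h)) h2
  have h7 : ((u j : ℕ) : ℤ) ∣ t - t' := hdiv _ huz h4
  have hcop1 : IsCoprime ((s j * (if cls j = 3 then s j else 1) : ℕ) : ℤ)
      ((v j ^ 2 : ℕ) : ℤ) := by
    rw [Nat.isCoprime_iff_coprime]
    apply Nat.coprime_of_dvd
    intro p hp hps hpv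
    have hps' : p ∣ s j := by
      rcases hp.dvd_mul.1 hps with h | h
      · exact h
      · split_ifs at h
        · exact h
        · exact absurd (Nat.dvd_one.1 h) hp.one_lt.ne'
    exact (g.fs hp hps').2.2 (g.fv hp (hp.dvd_of_dvd_pow hpv)).2
  have hcop2 : IsCoprime ((s j * (if cls j = 3 then s j else 1) * v j ^ 2 : ℕ) : ℤ)
      ((u j : ℕ) : ℤ) := by
    rw [Nat.isCoprime_iff_coprime]
    apply Nat.coprime_of_dvd
    intro p hp hps hpu
    have h8 : y < p := (g.fu hu hp hpu).1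
    have h9 : p ≤ y := by
      rcases hp.dvd_mul.1 hps with h | h
      · rcases hp.dvd_mul.1 h with h | h
        · exact (dv_prime (hs' j) hp h).2
        · split_ifs at h
          · exact (dv_prime (hs' j) hp h).2
          · exact absurd (Nat.dvd_one.1 h) hp.one_lt.ne'
      · exact (dv_prime (hv' j) hp (hp.dvd_of_dvd_pow h)).2
    omega
  unfold mj
  rw [Nat.cast_mul]
  refine hcop2.mul_dvd ?_ h7
  rw [Nat.cast_mul]
  exact hcop1.mul_dvd h5 h6

/-- the primes of the modulus in `(z, y]` -/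
lemma mj_primes (hs : s ∈ Tup J z y) (hv : v ∈ Tup J z y) (hu : u ∈ Tup J y Y) :
    (∏ j, mj cls s v u j).primeFactors.filter (fun p => p ∈ PS z y) =
      univ.biUnion (fun j => (s j).primeFactors ∪ (v j).primeFactors) := by
  have hs' := (mem_Tup'.1 hs).1
  have hv' := (mem_Tup'.1 hv).1
  have hu' := (mem_Tup'.1 hu).1
  have hm0 : ∏ j, mj cls s v u j ≠ 0 := by
    apply prod_ne_zero_iff.2
    intro j _
    unfold mj
    have h1 := dv_ne_zero (hs' j)
    have h2 := dv_ne_zero (hv' j)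
    have h3 := dv_ne_zero (hu' j)
    split_ifs <;> positivity
  ext p
  rw [mem_filter, Nat.mem_primeFactors, mem_biUnion]
  constructor
  · rintro ⟨⟨hp, hpm, -⟩, hpP⟩
    obtain ⟨j, hj, hpj⟩ := (hp.prime.dvd_finsetProd_iff _).1 hpm
    refine ⟨j, mem_univ j, ?_⟩
    rw [mem_union, Nat.mem_primeFactors, Nat.mem_primeFactors]
    unfold mj at hpj
    rcases hp.dvd_mul.1 hpj with h | h
    · rcases hp.dvd_mul.1 h with h | h
      · rcases hp.dvd_mul.1 h with h | h
        · exact Or.inl ⟨hp, h, dv_ne_zero (hs' j)⟩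
        · split_ifs at h
          · exact Or.inl ⟨hp, h, dv_ne_zero (hs' j)⟩
          · exact absurd (Nat.dvd_one.1 h) hp.one_lt.ne'
      · exact Or.inr ⟨hp, hp.dvd_of_dvd_pow h, dv_ne_zero (hv' j)⟩
    · exfalso
      have h1 := (dv_prime (hu' j) hp h).1
      have h2 := (mem_PS.1 hpP).1.2
      omega
  · rintro ⟨j, -, hj⟩
    rw [mem_union] at hj
    have hmj : ∀ d, d ∣ mj cls s v u j → d ∣ ∏ j, mj cls s v u j := fun d hd =>
      hd.trans (dvd_prod_of_mem _ (mem_univ j))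
    rcases hj with hj | hj
    · have hp := Nat.prime_of_mem_primeFactors hj
      have hd := Nat.dvd_of_mem_primeFactors hj
      refine ⟨⟨hp, hmj p ?_, hm0⟩, mem_PS.2 ⟨dv_prime (hs' j) hp hd, hp⟩⟩
      unfold mj
      exact (((hd.mul_right _).mul_right _).mul_right _)
    · have hp := Nat.prime_of_mem_primeFactors hj
      have hd := Nat.dvd_of_mem_primeFactors hj
      refine ⟨⟨hp, hmj p ?_, hm0⟩, mem_PS.2 ⟨dv_prime (hv' j) hp hd, hp⟩⟩
      unfold mj
      exact (((hd.pow two_ne_zero).mul_left _).mul_right _)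

lemma prod_gw {c : ℕ} {d : ℕ} (hd : d ∈ (PP z y).divisors) :
    ∏ p ∈ d.primeFactors, (p : ℝ) / ((p : ℝ) - c) = d * gw 1 c d := by
  unfold gw
  have h1 : (d : ℝ) = ∏ p ∈ d.primeFactors, (p : ℝ) := by
    rw [← Nat.cast_prod, Nat.prod_primeFactors_of_squarefree (dv_squarefree hd)]
  conv_rhs => rw [h1]
  rw [← prod_mul_distrib]
  apply prod_congr rfl
  intro p _
  ring

/-- the product over the primes of the modulus -/
lemma prod_primes (hB : Bg α β z) (hs : s ∈ Tup J z y) (hv : v ∈ Tup J z y)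
    (hu : u ∈ Tup J y Y) (g : Good α β z y s v u t) :
    ∏ p ∈ (∏ j, mj cls s v u j).primeFactors.filter (fun p => p ∈ PS z y),
      (p : ℝ) / ((p : ℝ) - Fintype.card J) =
    ∏ j, ((s j * gw 1 (Fintype.card J) (s j)) * (v j * gw 1 (Fintype.card J) (v j))) := by
  have hs' := (mem_Tup'.1 hs).1
  have hv' := (mem_Tup'.1 hv).1
  have key : ∀ j p, p ∈ (s j).primeFactors ∪ (v j).primeFactors →
      p.Prime ∧ z < p ∧ (p : ℤ) ∣ ff α β t j := by
    intro j p hp
    rcases mem_union.1 hp with hp | hp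
    · have h1 := Nat.prime_of_mem_primeFactors hp
      have h2 := g.fs h1 (Nat.dvd_of_mem_primeFactors hp)
      exact ⟨h1, (mem_PS.1 h2.1).1.1, h2.2.1⟩
    · have h1 := Nat.prime_of_mem_primeFactors hp
      have h2 := g.fv h1 (Nat.dvd_of_mem_primeFactors hp)
      exact ⟨h1, (mem_PS.1 h2.1).1.1, (dvd_pow_self (p : ℤ) two_ne_zero).trans h2.2⟩
  rw [mj_primes hs hv hu, prod_biUnion]
  · apply prod_congr rfl
    intro j _
    rw [prod_union, prod_gw (hs' j), prod_gw (hv' j)]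
    rw [Finset.disjoint_left]
    intro p h1 h2
    have hp := Nat.prime_of_mem_primeFactors h1
    exact (g.fs hp (Nat.dvd_of_mem_primeFactors h1)).2.2
      (g.fv hp (Nat.dvd_of_mem_primeFactors h2)).2
  · intro j _ l _ hjl
    rw [Function.onFun, Finset.disjoint_left]
    intro p h1 h2
    have h3 := key j p h1
    have h4 := key l p h2
    exact hjl (uniq hB h3.1 h3.2.1 h3.2.2 h4.2.2)

lemma exists_j3 {p : ℕ} (hp : p ∈ P3 cls s) : ∃ j, cls j = 3 ∧ p ∣ s j := by
  unfold P3 at hp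
  have h1 := Nat.prime_of_mem_primeFactors hp
  obtain ⟨j, hj, h⟩ := (h1.prime.dvd_finsetProd_iff _).1 (Nat.dvd_of_mem_primeFactors hp)
  exact ⟨j, (mem_filter.1 hj).2, h⟩

/-- the form of the class `3` divisible by `p` -/
noncomputable def j3 (cls : J → Fin 4) (s : J → ℕ) (p : P3 cls s) : J :=
  (exists_j3 p.2).choose

/-- the residues of the quotients -/
noncomputable def Phi (α β : J → ℤ) (cls : J → Fin 4) (s : J → ℕ) (t : ℤ) (p : P3 cls s) : ℕ :=
  ((ff α β t (j3 cls s p) / (p.1 : ℤ)) % (p.1 : ℤ)).toNat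

/-- the residues with the prescribed symbol -/
def WW (E : Finset ℕ) (p : ℕ) : Finset ℕ :=
  (range p).filter (fun x : ℕ => jacobiSym x p = if p ∈ E then -1 else 1)

lemma Phi_mem (hB : Bg α β z) (g : Good α β z y s v u t) {E : Finset ℕ}
    (hE : neg3 cls α β t s = E) :
    Phi α β cls s t ∈ Fintype.piFinset (fun p : P3 cls s => WW E p.1) := by
  rw [Fintype.mem_piFinset]
  rintro ⟨p, hp3⟩
  have hp : p.Prime := Nat.prime_of_mem_primeFactors hp3
  obtain ⟨hc, hps⟩ : cls (j3 cls s ⟨p, hp3⟩) = 3 ∧ p ∣ s (j3 cls s ⟨p, hp3⟩) :=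
    (exists_j3 hp3).choose_spec
  unfold WW Phi
  simp only
  set j := j3 cls s ⟨p, hp3⟩ with hj
  obtain ⟨hP, hd, hd2⟩ := g.fs hp hps
  have hpos : (0 : ℤ) < p := by exact_mod_cast hp.pos
  have h0 : 0 ≤ (ff α β t j / (p : ℤ)) % (p : ℤ) := Int.emod_nonneg _ hpos.ne'
  rw [mem_filter, mem_range]
  constructor
  · have h1 := Int.emod_lt_of_pos (ff α β t j / (p : ℤ)) hpos
    omega
  · rw [Int.toNat_of_nonneg h0, ← jacobiSym.mod_left]
    split_ifs with hpE
    · rw [← hE] at hpE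
      unfold neg3 at hpE
      rw [mem_filter] at hpE
      obtain ⟨-, l, -, hpl, hl⟩ := hpE
      have hjl : j = l := uniq hB hp (mem_PS.1 hP).1.1 hd (g.fs hp hpl).2.1
      rw [hjl]
      exact hl
    · have h1 : jacobiSym (ff α β t j / (p : ℤ)) p ≠ -1 := by
        intro h
        apply hpE
        rw [← hE]
        unfold neg3
        exact mem_filter.2 ⟨hp3, j, hc, hps, h⟩
      have h2 : jacobiSym (ff α β t j / (p : ℤ)) p ≠ 0 := by
        have : NeZero p := ⟨hp.ne_zero⟩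
        rw [Ne, jacobiSym.eq_zero_iff_not_coprime, not_not, Int.gcd_comm]
        rw [Int.gcd_eq_natAbs, Int.natAbs_natCast]
        apply (hp.coprime_iff_not_dvd).2
        intro h
        apply hd2
        have h3 : (p : ℤ) ∣ ff α β t j / (p : ℤ) := Int.natCast_dvd.2 h
        have h4 : ff α β t j = p * (ff α β t j / p) := (Int.mul_ediv_cancel' hd).symm
        rw [h4, sq]
        exact mul_dvd_mul_left _ h3
      rcases jacobiSym.trichotomy (ff α β t j / (p : ℤ)) p with h | h | h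
      · exact absurd h h2
      · exact h
      · exact absurd h h1

lemma Phi_congr (hB : Bg α β z) (hs : s ∈ Tup J z y) {t t' : ℤ} (g : Good α β z y s v u t)
    (g' : Good α β z y s v u t') (h : Phi α β cls s t = Phi α β cls s t') (j : J)
    (hj : cls j = 3) (p : ℕ) (hp : p.Prime) (hps : p ∣ s j) :
    (p : ℤ) ^ 2 ∣ ff α β t j - ff α β t' j := by
  have hs' := (mem_Tup'.1 hs).1
  have hp3 : p ∈ P3 cls s := by
    unfold P3
    rw [Nat.mem_primeFactors]
    refine ⟨hp, hps.trans (dvd_prod_of_mem _ (mem_filter.2 ⟨mem_univ j, hj⟩)), ?_⟩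
    exact prod_ne_zero_iff.2 fun i _ => dv_ne_zero (hs' i)
  obtain ⟨hc, hps'⟩ : cls (j3 cls s ⟨p, hp3⟩) = 3 ∧ p ∣ s (j3 cls s ⟨p, hp3⟩) :=
    (exists_j3 hp3).choose_spec
  have h1 := congrFun h ⟨p, hp3⟩
  unfold Phi at h1
  simp only at h1
  have h2 : j3 cls s ⟨p, hp3⟩ = j :=
    uniq hB hp (mem_PS.1 (g.fs hp hps).1).1.1 (g.fs hp hps').2.1 (g.fs hp hps).2.1
  rw [h2] at h1
  have hpos : (0 : ℤ) < p := by exact_mod_cast hp.pos
  have h3 : (ff α β t j / (p : ℤ)) % (p : ℤ) = (ff α β t' j / (p : ℤ)) % (p : ℤ) := by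
    have h4 := Int.emod_nonneg (ff α β t j / (p : ℤ)) hpos.ne'
    have h5 := Int.emod_nonneg (ff α β t' j / (p : ℤ)) hpos.ne'
    omega
  have h6 : (p : ℤ) ∣ ff α β t j / (p : ℤ) - ff α β t' j / (p : ℤ) :=
    Int.ModEq.dvd (Eq.symm h3)
  have h7 : ff α β t j = p * (ff α β t j / p) := (Int.mul_ediv_cancel' (g.fs hp hps).2.1).symm
  have h8 : ff α β t' j = p * (ff α β t' j / p) := (Int.mul_ediv_cancel' (g'.fs hp hps).2.1).symm
  rw [h7, h8, ← mul_sub, sq]
  exact mul_dvd_mul_left _ h6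

lemma card_Phi (hz : 2 ≤ z) (hs : s ∈ Tup J z y) (E : Finset ℕ) :
    ((Fintype.piFinset (fun p : P3 cls s => WW E p.1)).card : ℝ) ≤
      (1 / 2) ^ (P3 cls s).card * ∏ j, ((if cls j = 3 then s j else 1 : ℕ) : ℝ) := by
  have hs' := (mem_Tup'.1 hs).1
  rw [Fintype.card_piFinset]
  have h0 : ∏ p : P3 cls s, (WW E p.1).card = ∏ p ∈ P3 cls s, (WW E p).card :=
    prod_coe_sort (P3 cls s) (fun p => (WW E p).card)
  rw [h0]
  have h1 : ∀ p ∈ P3 cls s, (((WW E p).card : ℕ) : ℝ) ≤ (1 / 2) * (p : ℝ) := by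
    intro p hp
    have hpp := Nat.prime_of_mem_primeFactors hp
    have hp2 : p ≠ 2 := by
      obtain ⟨j, -, hj⟩ := exists_j3 hp
      have := (dv_prime (hs' j) hpp hj).1
      omega
    have h2 := card_W hpp hp2 (if p ∈ E then -1 else 1) (by split_ifs <;> simp)
    have h3 : 2 * (WW E p).card ≤ p := by
      unfold WW
      omega
    have h4 : (2 : ℝ) * ((WW E p).card : ℝ) ≤ p := by exact_mod_cast h3
    linarith
  rw [Nat.cast_prod]
  refine (prod_le_prod (fun _ _ => Nat.cast_nonneg _) h1).trans ?_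
  rw [prod_mul_distrib, prod_const]
  apply mul_le_mul_of_nonneg_left _ (by positivity)
  rw [← Nat.cast_prod, ← Nat.cast_prod, Nat.cast_le]
  rw [← prod_filter (fun j => cls j = 3) s]
  unfold P3
  apply Nat.le_of_dvd
  · exact prod_pos fun i _ => dv_pos (hs' i)
  · exact Nat.prod_primeFactors_dvd _

/-- CNT4 from SVR -/
theorem cnt4_of (h : SVR) : CNT4 := by
  intro J _ _ α β cls z hB
  obtain ⟨C, K, y0, hC, hK, hSV⟩ := h J α β z hB
  refine ⟨C, K, y0, hC, hK, ?_⟩
  intro X y Y hy0 hzy hX s hs v hv u hu hsvu E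
  have hs' := (mem_Tup'.1 hs).1
  have hv' := (mem_Tup'.1 hv).1
  have hu' := (mem_Tup'.1 hu).1
  have hz : 2 ≤ z := by have := hB.1; omega
  have hc : Fintype.card J ≤ z := by have := hB.1; omega
  have hlog : 0 ≤ (Real.log y) ^ (Fintype.card J) := pow_nonneg (Real.log_natCast_nonneg y) _
  set T := (Icc 1 X).filter (fun t : ℕ => s1 α β z y t = s ∧ s2 α β z y t = v ∧
      (∀ j, (u j : ℤ) ∣ ff α β t j) ∧ neg3 cls α β t s = E) with hT
  have hgood : ∀ t ∈ T, Good α β z y s v u (t : ℤ) ∧ neg3 cls α β t s = E := by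
    intro t ht
    rw [hT, mem_filter] at ht
    exact ⟨⟨ht.2.1, ht.2.2.1, ht.2.2.2.1⟩, ht.2.2.2.2⟩
  have hgs : ∀ j, 0 ≤ gw 1 (Fintype.card J) (s j) := fun j => gw_nonneg zero_le_one hc (hs' j)
  have hgv : ∀ j, 0 ≤ gw 1 (Fintype.card J) (v j) := fun j => gw_nonneg zero_le_one hc (hv' j)
  rcases T.eq_empty_or_nonempty with hTe | ⟨t0, ht0⟩
  · rw [hTe, card_empty, Nat.cast_zero]
    apply div_nonneg _ hlog
    have h1 : 0 ≤ ∏ j, gw 1 (Fintype.card J) (s j) := prod_nonneg fun j _ => hgs j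
    have h2 : 0 ≤ ∏ j, gw 1 (Fintype.card J) (v j) / v j :=
      prod_nonneg fun j _ => div_nonneg (hgv j) (Nat.cast_nonneg _)
    have h3 : 0 ≤ ∏ j, 1 / (u j : ℝ) := prod_nonneg fun j _ => by positivity
    positivity
  set m := ∏ j, mj cls s v u j with hm
  have hmj1 : ∀ j, 1 ≤ mj cls s v u j := by
    intro j
    unfold mj
    have h1 := dv_pos (hs' j)
    have h2 := dv_pos (hv' j)
    have h3 := dv_pos (hu' j)
    have h4 : 0 < (if cls j = 3 then s j else 1) := by split_ifs <;> omega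
    exact Nat.succ_le_of_lt (by positivity)
  have hm1 : 1 ≤ m := Nat.succ_le_of_lt (prod_pos fun j _ => hmj1 j)
  have hm4 : m ^ 4 ≤ X := by
    refine le_trans ?_ hsvu
    have h1 : m ≤ (∏ j, s j * v j * u j) ^ 2 := by
      rw [← prod_pow]
      apply prod_le_prod'
      intro j _
      unfold mj
      have h1 := dv_pos (hs' j)
      have h3 := dv_pos (hu' j)
      have h4 : (if cls j = 3 then s j else 1) ≤ s j := by split_ifs <;> omega
      calc s j * (if cls j = 3 then s j else 1) * v j ^ 2 * u j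
          ≤ s j * s j * v j ^ 2 * (u j * u j) := by
            apply Nat.mul_le_mul
            · exact Nat.mul_le_mul_right _ (Nat.mul_le_mul_left _ h4)
            · nlinarith
        _ = (s j * v j * u j) ^ 2 := by ring
    calc m ^ 4 ≤ ((∏ j, s j * v j * u j) ^ 2) ^ 4 := Nat.pow_le_pow_left h1 4
      _ = (∏ j, s j * v j * u j) ^ 8 := by rw [← pow_mul]
  have hsq := (hgood t0 ht0).1
  -- bound for a fibre
  set B : ℝ := C * (X / m) * (∏ p ∈ m.primeFactors.filter (fun p => p ∈ PS z y),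
        (p : ℝ) / ((p : ℝ) - Fintype.card J)) / (Real.log y) ^ (Fintype.card J) with hBdef
  have hfib : ∀ φ : P3 cls s → ℕ,
      ((T.filter (fun t : ℕ => Phi α β cls s (t : ℤ) = φ)).card : ℝ) ≤ B := by
    intro φ
    rcases (T.filter (fun t : ℕ => Phi α β cls s (t : ℤ) = φ)).eq_empty_or_nonempty with
      he | ⟨r, hr⟩
    · rw [he, card_empty, Nat.cast_zero]
      exact le_trans (Nat.cast_nonneg _) (hSV X y hy0 hzy hX m 0 hm1 hm4)
    · refine le_trans ?_ (hSV X y hy0 hzy hX m r hm1 hm4)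
      rw [Nat.cast_le]
      apply card_le_card
      intro t ht
      rw [mem_filter] at ht hr
      have g := (hgood t ht.1).1
      have g' := (hgood r hr.1).1
      have htX : t ∈ Icc 1 X := (mem_filter.1 ht.1).1
      rw [mem_filter]
      refine ⟨htX, ?_, ?_⟩
      · have h1 := congr_of hB hzy hs hv hu g g' (fun j hj p hp hps =>
          Phi_congr hB hs g g' (ht.2.trans hr.2.symm) j hj p hp hps)
        rw [← hm] at h1
        exact ((Nat.modEq_iff_dvd.2 h1)).symm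
      · intro p hpP hpm j hpf
        have hp := (mem_PS.1 hpP).2
        apply hpm
        rw [hm]
        refine Dvd.dvd.trans ?_ (dvd_prod_of_mem _ (mem_univ j))
        unfold mj
        by_cases h2 : (p : ℤ) ^ 2 ∣ ff α β t j
        · have h3 : p ∣ v j := by
            rw [← g.hv]
            exact (dvd_s2 hp).2 ⟨hpP, h2⟩
          exact (((h3.pow two_ne_zero).mul_left _).mul_right _)
        · have h3 : p ∣ s j := by
            rw [← g.hs]
            exact (dvd_s1 hp).2 ⟨hpP, hpf, h2⟩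
          exact (((h3.mul_right _).mul_right _).mul_right _)
  have hB0 : 0 ≤ B := le_trans (Nat.cast_nonneg _) (hSV X y hy0 hzy hX m 0 hm1 hm4)
  have hcard : (T.card : ℝ) ≤
      ((Fintype.piFinset (fun p : P3 cls s => WW E p.1)).card : ℝ) * B := by
    rw [card_eq_sum_card_fiberwise (f := fun t : ℕ => Phi α β cls s (t : ℤ))
      (t := Fintype.piFinset (fun p : P3 cls s => WW E p.1))
      (fun t ht => Phi_mem hB (hgood t ht).1 (hgood t ht).2)]
    rw [Nat.cast_sum]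
    refine (sum_le_sum fun φ _ => hfib φ).trans ?_
    rw [sum_const, nsmul_eq_mul]
  refine hcard.trans ((mul_le_mul_of_nonneg_right (card_Phi hz hs E) hB0).trans ?_)
  rw [hBdef, hm, prod_primes hB hs hv hu hsq, Nat.cast_prod]
  have hterm : ∀ j, ((if cls j = 3 then s j else 1 : ℕ) : ℝ) * ((s j *
      gw 1 (Fintype.card J) (s j)) * (v j * gw 1 (Fintype.card J) (v j))) /
      ((mj cls s v u j : ℕ) : ℝ) = gw 1 (Fintype.card J) (s j) *
      (gw 1 (Fintype.card J) (v j) / v j) * (1 / (u j : ℝ)) := by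
    intro j
    have h1 : (s j : ℝ) ≠ 0 := Nat.cast_ne_zero.2 (dv_ne_zero (hs' j))
    have h2 : (v j : ℝ) ≠ 0 := Nat.cast_ne_zero.2 (dv_ne_zero (hv' j))
    have h3 : (u j : ℝ) ≠ 0 := Nat.cast_ne_zero.2 (dv_ne_zero (hu' j))
    have h4 : ((if cls j = 3 then s j else 1 : ℕ) : ℝ) ≠ 0 := by
      split_ifs
      · exact h1
      · simp
    unfold mj
    rw [Nat.cast_mul, Nat.cast_mul, Nat.cast_mul, Nat.cast_pow]
    field_simp
  have hprod : (∏ j, ((if cls j = 3 then s j else 1 : ℕ) : ℝ)) *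
      (∏ j, ((s j * gw 1 (Fintype.card J) (s j)) * (v j * gw 1 (Fintype.card J) (v j)))) /
      (∏ j, ((mj cls s v u j : ℕ) : ℝ)) = (∏ j, gw 1 (Fintype.card J) (s j)) *
        (∏ j, gw 1 (Fintype.card J) (v j) / v j) * (∏ j, 1 / (u j : ℝ)) := by
    rw [← prod_mul_distrib, ← prod_div_distrib, ← prod_mul_distrib, ← prod_mul_distrib]
    exact prod_congr rfl fun j _ => hterm j
  apply le_of_eq
  rw [show C * X * (1 / 2) ^ (P3 cls s).card * (∏ j, gw 1 (Fintype.card J) (s j)) *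
        (∏ j, gw 1 (Fintype.card J) (v j) / v j) * (∏ j, 1 / (u j : ℝ)) =
      C * X * (1 / 2) ^ (P3 cls s).card * ((∏ j, gw 1 (Fintype.card J) (s j)) *
        (∏ j, gw 1 (Fintype.card J) (v j) / v j) * (∏ j, 1 / (u j : ℝ))) by ring, ← hprod]
  ring

end Pool.Agent.W372.RK2
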